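import Pool.Agent.Helper61.SS.Goals

/-!
# Project SS: the universal property of the projective tensor product (`G_EXT`)
-/

set_option autoImplicit false

namespace Pool.Agent.Helper96.SS

open Pool.Agent.Helper61.SS
open TensorProduct

universe u v w x

section

variable {A : Type u} {B : Type v} {Z : Type x}
  [NormedAddCommGroup A] [NormedSpace ℂ A] [NormedAddCommGroup B] [NormedSpace ℂ B]
  [NormedAddCommGroup Z] [NormedSpace ℂ Z]

/-- Every tensor is a finite sum of elementary tensors. -/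
theorem exists_rep (t : A ⊗[ℂ] B) : ∃ (n : ℕ) (a : Fin n → A) (b : Fin n → B),
    t = ∑ i, a i ⊗ₜ[ℂ] b i := by
  obtain ⟨S, hS⟩ := TensorProduct.exists_finset t
  refine ⟨S.card, fun i => (S.equivFin.symm i : A × B).1, fun i => (S.equivFin.symm i : A × B).2, ?_⟩
  rw [hS, ← Finset.sum_coe_sort]
  exact (Fintype.sum_equiv S.equivFin.symm _ _ fun i => rfl).symm

/-- The bilinear map of a continuous bilinear map. -/
noncomputable def bil (β : A →L[ℂ] B →L[ℂ] Z) : A →ₗ[ℂ] B →ₗ[ℂ] Z :=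
  (ContinuousLinearMap.coeLM ℂ) ∘ₗ (β : A →ₗ[ℂ] (B →L[ℂ] Z))

theorem bil_apply (β : A →L[ℂ] B →L[ℂ] Z) (a : A) (b : B) : bil β a b = β a b := rfl

theorem norm_lift_le (β : A →L[ℂ] B →L[ℂ] Z) (t : A ⊗[ℂ] B) :
    ‖TensorProduct.lift (bil β) t‖ ≤ (‖β‖ + 1) * pn t := by
  have hC : 0 < ‖β‖ + 1 := by positivity
  rw [← div_le_iff₀' hC]
  unfold pn
  refine le_csInf ?_ ?_
  · obtain ⟨n, a, b, h⟩ := exists_rep t
    exact ⟨_, n, a, b, h, rfl⟩
  · rintro r ⟨n, a, b, h, rfl⟩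
    rw [div_le_iff₀' hC, h, map_sum, Finset.mul_sum]
    refine (norm_sum_le _ _).trans (Finset.sum_le_sum fun i _ => ?_)
    rw [TensorProduct.lift.tmul, bil_apply]
    refine (β.le_opNorm₂ (a i) (b i)).trans ?_
    rw [mul_assoc]
    exact mul_le_mul_of_nonneg_right (by linarith) (by positivity)

end

theorem gEXT : G_EXT.{u, v, w, x} := by
  intro A B C Z _ _ _ _ _ _ _ _ _ j hj β
  have hb : ∃ K : ℝ, ∀ t : A ⊗[ℂ] B, ‖TensorProduct.lift (bil β) t‖ ≤
      K * ‖TensorProduct.lift j t‖ := ⟨‖β‖ + 1, fun t => by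
    rw [hj.norm]
    exact norm_lift_le β t⟩
  refine ⟨(TensorProduct.lift (bil β)).extendOfNorm (TensorProduct.lift j), fun a b => ?_⟩
  have h := LinearMap.extendOfNorm_eq (f := TensorProduct.lift (bil β))
    (e := TensorProduct.lift j) hj.dense hb (a ⊗ₜ[ℂ] b)
  rw [TensorProduct.lift.tmul, TensorProduct.lift.tmul, bil_apply] at h
  exact h

end Pool.Agent.Helper96.SS
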